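import Pool.Agent.Helper80.HY.Defs
import Pool.Agent.Helper80.PP.Thick

/-!
# Project FZ (MP_2c6f0d_gt): leaves `L ≃* F × ℤ`, `F` free of finite rank `r`. Definitions

Every coset `x L` is identified with `F × ℤ` by `fz ψ` (`ψ : L ≃* FreeGroup (Fin r) × Multiplicative ℤ`):
`vt ψ x` is the vertex of the tree of `F` (rooted at `1`; the depth of a vertex is the length of the reduced
word, `anc n v` is the ancestor in depth `n`), `ps ψ x` is the height. Windows: depths `k p, ..., k p + k - 1`.
The phases `φ` give the cut points of the line over a vertex of the window `p`: those of the ancestors `U0`, `U1`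
in the depths `k p` and `k (p - 1)`. `ps % w = φ` at a cut point, `ix` is the number of the last cut point which is
not above the given height, `iv` is the block (an interval of a line between cut points).
-/

set_option autoImplicit false

namespace Pool.Agent.Helper65.FZ

/-- blocks: an abstract partition of the lines `x ⟨a⟩` into intervals shorter than `2 w`; at most `9` of
them meet an interval of length `w` -/
structure Ivs {G V : Type*} [Group G] (a : G) (w : ℕ) (iv : G → V) : Prop where
  line : ∀ x y, iv x = iv y → ∃ j : ℤ, |j| < 2 * w ∧ y = x * a ^ j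
  few : ∀ x, ∃ Φ : Finset V, Φ.card ≤ 9 ∧ ∀ j : ℤ, 0 ≤ j → j < w → iv (x * a ^ j) ∈ Φ

section tree

variable {r : ℕ}

/-- the ancestor of `v` in depth `n` -/
def anc (n : ℕ) (v : FreeGroup (Fin r)) : FreeGroup (Fin r) := FreeGroup.mk (v.toWord.take n)

/-- one of the two vertices is the parent of the other one -/
def Adj (u v : FreeGroup (Fin r)) : Prop :=
  (v.norm = u.norm + 1 ∧ anc u.norm v = u) ∨ (u.norm = v.norm + 1 ∧ anc v.norm u = v)

end tree

section coordinates

variable {G : Type*} [Group G] {L : Subgroup G} {r : ℕ}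
  (ψ : L ≃* FreeGroup (Fin r) × Multiplicative ℤ)

/-- the coordinates of `x` in its coset of `L` -/
noncomputable def fz (x : G) : FreeGroup (Fin r) × Multiplicative ℤ :=
  ψ ⟨(Quotient.out (x : G ⧸ L))⁻¹ * x, QuotientGroup.eq.1 (Quotient.out_eq' (x : G ⧸ L))⟩

/-- the vertex -/
noncomputable def vt (x : G) : FreeGroup (Fin r) := (fz ψ x).1

/-- the height -/
noncomputable def ps (x : G) : ℤ := Multiplicative.toAdd (fz ψ x).2

/-- the element of `L` with given coordinates -/
noncomputable def el (v : FreeGroup (Fin r)) (z : ℤ) : G := (ψ.symm (v, Multiplicative.ofAdd z) : L)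

open Classical in
/-- the standard generators of `L` -/
noncomputable def gens : Finset G :=
  (Finset.univ.image fun i => el ψ (FreeGroup.of i) 0) ∪
    (Finset.univ.image fun i => el ψ (FreeGroup.of i)⁻¹ 0) ∪ {el ψ 1 1, el ψ 1 (-1)}

end coordinates

section blocks

/-- variables of the phases -/
abbrev Pv {G : Type*} [Group G] (L : Subgroup G) (r : ℕ) : Type _ := (G ⧸ L) × FreeGroup (Fin r) × ℤ

/-- blocks -/
abbrev Bk {G : Type*} [Group G] (L : Subgroup G) (r : ℕ) : Type _ :=
  (G ⧸ L) × FreeGroup (Fin r) × ℤ × ℤ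

variable {G : Type*} [Group G] {L : Subgroup G} {r : ℕ}
  (ψ : L ≃* FreeGroup (Fin r) × Multiplicative ℤ) (k w : ℕ) (φ : Pv L r → ℤ)

/-- the top vertex of the window of `x` -/
noncomputable def U0 (x : G) : FreeGroup (Fin r) := anc (k * ((vt ψ x).norm / k)) (vt ψ x)

/-- the ancestor of `x` which is the top vertex of the window above the window of `x` -/
noncomputable def U1 (x : G) : FreeGroup (Fin r) := anc (k * ((vt ψ x).norm / k - 1)) (vt ψ x)

variable {k} in
/-- the height `z` is a cut point of `u` in the coset `c` -/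
def Cut (c : G ⧸ L) (u : FreeGroup (Fin r)) (z : ℤ) : Prop := z % w = φ (c, u, z / w)

open Classical in
/-- the number of the last cut point of `u` in the coset `c` which is at most `z` -/
noncomputable def ix (c : G ⧸ L) (u : FreeGroup (Fin r)) (z : ℤ) : ℤ :=
  if z % w < φ (c, u, z / w) then z / w - 1 else z / w

/-- the points at the cut points -/
def Seam : Set G := {x | Cut w φ (x : G ⧸ L) (U0 ψ k x) (ps ψ x) ∨
  Cut w φ (x : G ⧸ L) (U1 ψ k x) (ps ψ x)}

/-- the block over the ancestor of `x` in depth `m`, in the window of `x` -/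
noncomputable def up (x : G) (m : ℕ) : Bk L r := ((x : G ⧸ L), anc m (vt ψ x),
  ix w φ (x : G ⧸ L) (U0 ψ k x) (ps ψ x), ix w φ (x : G ⧸ L) (U1 ψ k x) (ps ψ x))

/-- the block of `x` -/
noncomputable def iv (x : G) : Bk L r := ((x : G ⧸ L), vt ψ x,
  ix w φ (x : G ⧸ L) (U0 ψ k x) (ps ψ x), ix w φ (x : G ⧸ L) (U1 ψ k x) (ps ψ x))

variable (Mk : Set (Bk L r))

/-- some block above `x` in the window of `x` is marked -/
def Hi (x : G) : Prop :=
  ∃ m, k * ((vt ψ x).norm / k) ≤ m ∧ m ≤ (vt ψ x).norm ∧ up ψ k w φ x m ∈ Mk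

/-- forced points: at the bottom of a window, no block above in the window is marked -/
def Fc : Set G := {x | (vt ψ x).norm % k = k - 1 ∧ ¬ Hi ψ k w φ Mk x}

open Classical in
/-- the vertex which governs `x` -/
noncomputable def gov (x : G) : FreeGroup (Fin r) := if Hi ψ k w φ Mk x then U0 ψ k x else U1 ψ k x

/-- this does not change along chains of points which are not in a wall -/
noncomputable def inv (x : G) : Pv L r :=
  ((x : G ⧸ L), gov ψ k w φ Mk x, ix w φ (x : G ⧸ L) (gov ψ k w φ Mk x) (ps ψ x))

end blocks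

end Pool.Agent.Helper65.FZ
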