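import Pool.Agent.Helper65.FZ.Tree

/-!
# FZ: coordinates in the cosets of `L ≃* F × ℤ`
-/

set_option autoImplicit false

namespace Pool.Agent.Helper65.FZ

open FreeGroup

variable {G : Type*} [Group G] {L : Subgroup G} {r : ℕ}
  (ψ : L ≃* FreeGroup (Fin r) × Multiplicative ℤ)

theorem mk_mul_mem (x : G) (l : L) : ((x * l : G) : G ⧸ L) = (x : G ⧸ L) :=
  QuotientGroup.mk_mul_of_mem x l.2

theorem fz_mul (x : G) (l : L) : fz ψ (x * l) = fz ψ x * ψ l := by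
  unfold fz
  rw [← _root_.map_mul]
  congr 1
  apply Subtype.ext
  show (Quotient.out ((x * l : G) : G ⧸ L))⁻¹ * (x * l) = (Quotient.out (x : G ⧸ L))⁻¹ * x * l
  rw [mk_mul_mem x l, mul_assoc]

theorem el_mem (v : FreeGroup (Fin r)) (z : ℤ) : el ψ v z ∈ L :=
  (ψ.symm (v, Multiplicative.ofAdd z)).2

theorem psi_el (v : FreeGroup (Fin r)) (z : ℤ) :
    ψ ⟨el ψ v z, el_mem ψ v z⟩ = (v, Multiplicative.ofAdd z) := by
  have h : (⟨el ψ v z, el_mem ψ v z⟩ : L) = ψ.symm (v, Multiplicative.ofAdd z) := rfl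
  rw [h, MulEquiv.apply_symm_apply]

theorem fz_mul_el (x : G) (v : FreeGroup (Fin r)) (z : ℤ) :
    fz ψ (x * el ψ v z) = fz ψ x * (v, Multiplicative.ofAdd z) := by
  have h := fz_mul ψ x ⟨el ψ v z, el_mem ψ v z⟩
  rwa [psi_el] at h

theorem vt_mul_el (x : G) (v : FreeGroup (Fin r)) (z : ℤ) : vt ψ (x * el ψ v z) = vt ψ x * v := by
  unfold vt
  rw [fz_mul_el, Prod.fst_mul]

theorem ps_mul_el (x : G) (v : FreeGroup (Fin r)) (z : ℤ) : ps ψ (x * el ψ v z) = ps ψ x + z := by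
  unfold ps
  rw [fz_mul_el, Prod.snd_mul, toAdd_mul]
  rfl

theorem mk_mul_el (x : G) (v : FreeGroup (Fin r)) (z : ℤ) :
    ((x * el ψ v z : G) : G ⧸ L) = (x : G ⧸ L) :=
  QuotientGroup.mk_mul_of_mem x (el_mem ψ v z)

theorem el_mul (u v : FreeGroup (Fin r)) (y z : ℤ) : el ψ u y * el ψ v z = el ψ (u * v) (y + z) := by
  unfold el
  rw [← Subgroup.coe_mul, ← _root_.map_mul]
  rfl

theorem el_one : el ψ (1 : FreeGroup (Fin r)) 0 = 1 := by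
  unfold el
  rw [← OneMemClass.coe_one L]
  congr 1
  rw [ofAdd_zero]
  exact _root_.map_one ψ.symm

theorem el_inv (v : FreeGroup (Fin r)) (z : ℤ) : (el ψ v z)⁻¹ = el ψ v⁻¹ (-z) := by
  rw [inv_eq_iff_mul_eq_one, el_mul, mul_inv_cancel, add_neg_cancel, el_one]

theorem el_zpow (j : ℤ) : el ψ (1 : FreeGroup (Fin r)) 1 ^ j = el ψ 1 j := by
  induction j using Int.induction_on with
  | zero => rw [zpow_zero, el_one]
  | succ n ih => rw [zpow_add_one, ih, el_mul, one_mul]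
  | pred n ih => rw [zpow_sub_one, ih, el_inv, el_mul, inv_one, one_mul, sub_eq_add_neg]

/-- `y` is obtained from `x` by an element of `L` with known coordinates -/
theorem eq_mul_el {x y : G} (h : (x : G ⧸ L) = (y : G ⧸ L)) :
    y = x * el ψ ((vt ψ x)⁻¹ * vt ψ y) (ps ψ y - ps ψ x) := by
  have hl : x⁻¹ * y ∈ L := QuotientGroup.eq.1 h
  have h1 : fz ψ y = fz ψ x * ψ ⟨x⁻¹ * y, hl⟩ := by
    have h2 := fz_mul ψ x ⟨x⁻¹ * y, hl⟩
    rwa [show x * ((⟨x⁻¹ * y, hl⟩ : L) : G) = y from mul_inv_cancel_left x y] at h2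
  have h3 : ψ ⟨x⁻¹ * y, hl⟩ = ((vt ψ x)⁻¹ * vt ψ y, Multiplicative.ofAdd (ps ψ y - ps ψ x)) := by
    have h4 : ψ ⟨x⁻¹ * y, hl⟩ = (fz ψ x)⁻¹ * fz ψ y := by
      rw [h1, inv_mul_cancel_left]
    rw [h4]
    refine Prod.ext rfl ?_
    show (fz ψ x).2⁻¹ * (fz ψ y).2 = Multiplicative.ofAdd (ps ψ y - ps ψ x)
    unfold ps
    rw [ofAdd_sub, ofAdd_toAdd, ofAdd_toAdd, div_eq_mul_inv, mul_comm]
  have h5 : (ψ.symm ((vt ψ x)⁻¹ * vt ψ y, Multiplicative.ofAdd (ps ψ y - ps ψ x)) : L) =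
      ⟨x⁻¹ * y, hl⟩ := by
    rw [← h3, MulEquiv.symm_apply_apply]
  have h6 : el ψ ((vt ψ x)⁻¹ * vt ψ y) (ps ψ y - ps ψ x) = x⁻¹ * y := by
    unfold el
    rw [h5]
  rw [h6, mul_inv_cancel_left]

theorem mem_gens {s : G} : s ∈ gens ψ ↔ (∃ i, s = el ψ (of i) 0) ∨ (∃ i, s = el ψ (of i)⁻¹ 0) ∨
    s = el ψ 1 1 ∨ s = el ψ 1 (-1) := by
  unfold gens
  simp only [Finset.mem_union, Finset.mem_image, Finset.mem_univ, true_and, Finset.mem_insert,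
    Finset.mem_singleton]
  constructor
  · rintro ((⟨i, hi⟩ | ⟨i, hi⟩) | h)
    · exact Or.inl ⟨i, hi.symm⟩
    · exact Or.inr (Or.inl ⟨i, hi.symm⟩)
    · exact Or.inr (Or.inr h)
  · rintro (⟨i, hi⟩ | ⟨i, hi⟩ | h)
    · exact Or.inl (Or.inl ⟨i, hi.symm⟩)
    · exact Or.inl (Or.inr ⟨i, hi.symm⟩)
    · exact Or.inr h

theorem gens_sub {s : G} (hs : s ∈ gens ψ) : s ∈ L := by
  rcases (mem_gens ψ).1 hs with ⟨i, rfl⟩ | ⟨i, rfl⟩ | rfl | rfl
  all_goals exact el_mem ψ _ _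

theorem gens_inv {s : G} (hs : s ∈ gens ψ) : s⁻¹ ∈ gens ψ := by
  rw [mem_gens] at hs ⊢
  rcases hs with ⟨i, rfl⟩ | ⟨i, rfl⟩ | rfl | rfl
  · exact Or.inr (Or.inl ⟨i, by rw [el_inv, neg_zero]⟩)
  · exact Or.inl ⟨i, by rw [el_inv, inv_inv, neg_zero]⟩
  · exact Or.inr (Or.inr (Or.inr (by rw [el_inv, inv_one])))
  · exact Or.inr (Or.inr (Or.inl (by rw [el_inv, inv_one, neg_neg])))

theorem step_gens (x : G) {s : G} (hs : s ∈ gens ψ) :
    (vt ψ (x * s) = vt ψ x ∧ (ps ψ (x * s) = ps ψ x + 1 ∨ ps ψ (x * s) = ps ψ x - 1)) ∨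
      (ps ψ (x * s) = ps ψ x ∧ Adj (vt ψ x) (vt ψ (x * s))) := by
  rcases (mem_gens ψ).1 hs with ⟨i, rfl⟩ | ⟨i, rfl⟩ | rfl | rfl
  · right
    rw [vt_mul_el, ps_mul_el, add_zero]
    exact ⟨rfl, adj_mk _ (i, true)⟩
  · right
    rw [vt_mul_el, ps_mul_el, add_zero]
    exact ⟨rfl, adj_mk _ (i, false)⟩
  · left
    rw [vt_mul_el, ps_mul_el, mul_one]
    exact ⟨rfl, Or.inl rfl⟩
  · left
    rw [vt_mul_el, ps_mul_el, mul_one]
    exact ⟨rfl, Or.inr rfl⟩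

/-- `L` is generated by the standard generators -/
theorem le_closure_gens : L ≤ Subgroup.closure (gens ψ : Set G) := by
  intro g hg
  obtain ⟨v, z, hvz⟩ : ∃ v z, ψ ⟨g, hg⟩ = (v, Multiplicative.ofAdd z) :=
    ⟨(ψ ⟨g, hg⟩).1, Multiplicative.toAdd (ψ ⟨g, hg⟩).2, rfl⟩
  have h1 : g = el ψ v z := by
    unfold el
    rw [← hvz, MulEquiv.symm_apply_apply]
  have ha : ∀ j : ℤ, el ψ 1 j ∈ Subgroup.closure (gens ψ : Set G) := by
    intro j
    rw [← el_zpow]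
    exact Subgroup.zpow_mem _ (Subgroup.subset_closure
      (Finset.mem_coe.2 ((mem_gens ψ).2 (Or.inr (Or.inr (Or.inl rfl)))))) j
  have hv : ∀ W : List (Fin r × Bool), el ψ (mk W) 0 ∈ Subgroup.closure (gens ψ : Set G) := by
    intro W
    induction W with
    | nil =>
      rw [← one_eq_mk]
      exact ha 0
    | cons x W ih =>
      have h2 : el ψ (mk (x :: W)) 0 = el ψ (mk [x]) 0 * el ψ (mk W) 0 := by
        rw [el_mul, mul_mk, add_zero]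
        rfl
      rw [h2]
      refine Subgroup.mul_mem _ (Subgroup.subset_closure (Finset.mem_coe.2 ((mem_gens ψ).2 ?_))) ih
      obtain ⟨i, b⟩ := x
      cases b with
      | true => exact Or.inl ⟨i, rfl⟩
      | false => exact Or.inr (Or.inl ⟨i, rfl⟩)
  have h3 : g = el ψ (mk v.toWord) 0 * el ψ 1 z := by
    rw [el_mul, mul_one, zero_add, mk_toWord]
    exact h1
  rw [h3]
  exact Subgroup.mul_mem _ (hv _) (ha z)

end Pool.Agent.Helper65.FZ
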