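import Pool.Agent.Helper65.FZ.ZbF
import Pool.Agent.Helper65.TH.AsdimSub

/-!
# FZ: the asymptotic dimension of `F × ℤ` is finite

Four sets: annuli `K q ≤ length < K (q + 1)` with `q` even or odd, times intervals `K j ≤ z < K (j + 1)` with `j`
even or odd.
-/

set_option autoImplicit false

namespace Pool.Agent.Helper65.FZ

open Pool.Agent.Helper65.TH

private theorem anc_zero {r : ℕ} (v : FreeGroup (Fin r)) : anc 0 v = 1 := by
  unfold anc
  rw [List.take_zero]
  rfl

private theorem anc_step {r : ℕ} {K R q : ℕ} (v s : FreeGroup (Fin r)) (hs : s.norm ≤ R)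
    (hv : K * q ≤ v.norm) : anc (K * q - R) (v * s) = anc (K * q - R) v := by
  by_cases h : K * q ≤ R
  · rw [Nat.sub_eq_zero_of_le h, anc_zero, anc_zero]
  · exact anc_mul _ _ _ (by omega)

private theorem norm_close {r : ℕ} (v s : FreeGroup (Fin r)) :
    (v * s).norm ≤ v.norm + s.norm ∧ v.norm ≤ (v * s).norm + s.norm := by
  refine ⟨FreeGroup.norm_mul_le v s, ?_⟩
  have h1 := FreeGroup.norm_mul_le (v * s) s⁻¹
  rwa [mul_inv_cancel_right, FreeGroup.norm_inv_eq] at h1

theorem asdimLT_prod (r : ℕ) : AsdimLT (FreeGroup (Fin r) × Multiplicative ℤ) 4 := by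
  classical
  intro F
  obtain ⟨R, hR⟩ : ∃ R : ℕ, R = F.sup (fun s => s.1.norm) + F.sup (fun s => (Multiplicative.toAdd s.2).natAbs) :=
    ⟨_, rfl⟩
  have hR1 : ∀ s ∈ F, s.1.norm ≤ R := by
    intro s hs
    have h := Finset.le_sup (f := fun s : FreeGroup (Fin r) × Multiplicative ℤ => s.1.norm) hs
    omega
  have hR2 : ∀ s ∈ F, (Multiplicative.toAdd s.2).natAbs ≤ R := by
    intro s hs
    have h := Finset.le_sup
      (f := fun s : FreeGroup (Fin r) × Multiplicative ℤ => (Multiplicative.toAdd s.2).natAbs) hs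
    omega
  obtain ⟨K, hK⟩ : ∃ K : ℕ, K = R + 1 := ⟨_, rfl⟩
  have hKpos : 0 < K := by omega
  let A : Fin 4 → Set (FreeGroup (Fin r) × Multiplicative ℤ) := fun i =>
    {x | (x.1.norm / K) % 2 = (i : ℕ) / 2 ∧ (Multiplicative.toAdd x.2 / K) % 2 = ((i : ℕ) % 2 : ℕ)}
  refine ⟨((fb r (2 * (K + R))) ×ˢ (Finset.Icc (-(K : ℤ)) K)).image
    fun p => (p.1, Multiplicative.ofAdd p.2), A, ?_, ?_⟩
  · intro x
    have h1 : (x.1.norm / K) % 2 < 2 := Nat.mod_lt _ (by norm_num)
    have h2 : 0 ≤ (Multiplicative.toAdd x.2 / K) % 2 := Int.emod_nonneg _ (by norm_num)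
    have h3 : (Multiplicative.toAdd x.2 / K) % 2 < 2 := Int.emod_lt_of_pos _ (by norm_num)
    refine ⟨⟨2 * ((x.1.norm / K) % 2) + ((Multiplicative.toAdd x.2 / K) % 2).toNat, by omega⟩, ?_, ?_⟩
    · show (x.1.norm / K) % 2 = (2 * ((x.1.norm / K) % 2) + ((Multiplicative.toAdd x.2 / K) % 2).toNat) / 2
      omega
    · show (Multiplicative.toAdd x.2 / K) % 2 =
        (((2 * ((x.1.norm / K) % 2) + ((Multiplicative.toAdd x.2 / K) % 2).toNat) % 2 : ℕ) : ℤ)
      omega
  · intro i x hx y hxy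
    obtain ⟨q, hq⟩ : ∃ q, q = x.1.norm / K := ⟨_, rfl⟩
    have key : y ∈ A i ∧ y.1.norm / K = q ∧ anc (K * q - R) y.1 = anc (K * q - R) x.1 ∧
        Multiplicative.toAdd y.2 / K = Multiplicative.toAdd x.2 / K := by
      refine hxy.rec' (R := fun y => y ∈ A i ∧ y.1.norm / K = q ∧
        anc (K * q - R) y.1 = anc (K * q - R) x.1 ∧
        Multiplicative.toAdd y.2 / K = Multiplicative.toAdd x.2 / K) ⟨hx, hq.symm, rfl, rfl⟩ ?_
      intro a b _ ha hs hb
      obtain ⟨ha1, ha2, ha3, ha4⟩ := ha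
      obtain ⟨s, hs0⟩ : ∃ s, s = a⁻¹ * b := ⟨_, rfl⟩
      have hb0 : b = a * s := by rw [hs0, mul_inv_cancel_left]
      rw [← hs0] at hs
      have hsF : s ∈ F := hs
      have h1 := hR1 s hsF
      have h2 := hR2 s hsF
      have hb1 : b.1 = a.1 * s.1 := by rw [hb0]; rfl
      have hb2 : Multiplicative.toAdd b.2 = Multiplicative.toAdd a.2 + Multiplicative.toAdd s.2 := by
        rw [hb0]
        rfl
      have h3 := norm_close a.1 s.1
      rw [← hb1] at h3
      have ha5 : K * q ≤ a.1.norm := by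
        rw [← ha2]
        exact Nat.mul_div_le _ _
      have h5 : b.1.norm / K = a.1.norm / K := by
        have e1 : b.1.norm / K ≤ a.1.norm / K + 1 := by
          rw [← Nat.add_div_right _ hKpos]
          exact Nat.div_le_div_right (by omega)
        have e2 : a.1.norm / K ≤ b.1.norm / K + 1 := by
          rw [← Nat.add_div_right _ hKpos]
          exact Nat.div_le_div_right (by omega)
        have e3 := ha1.1
        have e4 := hb.1
        omega
      have hKz : (0 : ℤ) < K := by exact_mod_cast hKpos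
      have h6 : Multiplicative.toAdd b.2 / K = Multiplicative.toAdd a.2 / K := by
        have e1 : Multiplicative.toAdd b.2 / K ≤ Multiplicative.toAdd a.2 / K + 1 := by
          have e5 : Multiplicative.toAdd b.2 / K ≤ (Multiplicative.toAdd a.2 + K) / K :=
            Int.ediv_le_ediv hKz (by omega)
          rwa [Int.add_ediv_of_dvd_right (dvd_refl _), Int.ediv_self hKz.ne'] at e5
        have e2 : Multiplicative.toAdd a.2 / K ≤ Multiplicative.toAdd b.2 / K + 1 := by
          have e5 : Multiplicative.toAdd a.2 / K ≤ (Multiplicative.toAdd b.2 + K) / K :=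
            Int.ediv_le_ediv hKz (by omega)
          rwa [Int.add_ediv_of_dvd_right (dvd_refl _), Int.ediv_self hKz.ne'] at e5
        have e3 := ha1.2
        have e4 := hb.2
        omega
      refine ⟨hb, by rw [h5, ha2], ?_, by rw [h6, ha4]⟩
      rw [hb1, anc_step a.1 s.1 h1 ha5, ha3]
    obtain ⟨-, h1, h2, h3⟩ := key
    obtain ⟨u, hu⟩ : ∃ u, u = anc (K * q - R) x.1 := ⟨_, rfl⟩
    have h4 := norm_inv_anc_mul (K * q - R) x.1
    have h5 := norm_inv_anc_mul (K * q - R) y.1
    rw [h2] at h5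
    rw [← hu] at h4 h5
    have h6 : x.1.norm < K * (q + 1) := by
      rw [hq]
      exact Nat.lt_mul_div_succ _ hKpos
    have h7 : y.1.norm < K * (q + 1) := by
      rw [← h1]
      exact Nat.lt_mul_div_succ _ hKpos
    have h8 : K * (q + 1) = K * q + K := by ring
    have h9 : ((x⁻¹ * y).1).norm ≤ 2 * (K + R) := by
      have e1 : (x⁻¹ * y).1 = (u⁻¹ * x.1)⁻¹ * (u⁻¹ * y.1) := by
        show x.1⁻¹ * y.1 = _
        group
      rw [e1]
      refine (FreeGroup.norm_mul_le _ _).trans ?_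
      rw [FreeGroup.norm_inv_eq]
      omega
    have hKz : (0 : ℤ) < K := by exact_mod_cast hKpos
    have h10 := Int.mul_ediv_self_le (x := Multiplicative.toAdd x.2) hKz.ne'
    have h11 := Int.mul_ediv_self_le (x := Multiplicative.toAdd y.2) hKz.ne'
    have h12 := Int.lt_mul_ediv_self_add (x := Multiplicative.toAdd x.2) hKz
    have h13 := Int.lt_mul_ediv_self_add (x := Multiplicative.toAdd y.2) hKz
    rw [h3] at h11 h13
    refine Finset.mem_image.2 ⟨((x⁻¹ * y).1, Multiplicative.toAdd y.2 - Multiplicative.toAdd x.2), ?_, ?_⟩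
    · refine Finset.mem_product.2 ⟨mem_fb h9, Finset.mem_Icc.2 ⟨?_, ?_⟩⟩
      · show -(K : ℤ) ≤ Multiplicative.toAdd y.2 - Multiplicative.toAdd x.2
        omega
      · show Multiplicative.toAdd y.2 - Multiplicative.toAdd x.2 ≤ (K : ℤ)
        omega
    · refine Prod.ext rfl ?_
      show Multiplicative.ofAdd (Multiplicative.toAdd y.2 - Multiplicative.toAdd x.2) = x.2⁻¹ * y.2
      rw [ofAdd_sub, ofAdd_toAdd, ofAdd_toAdd, div_eq_mul_inv, mul_comm]

theorem asdimLT_leaf {G : Type*} [Group G] {L : Subgroup G} {r : ℕ}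
    (ψ : L ≃* FreeGroup (Fin r) × Multiplicative ℤ) : AsdimLT L 4 :=
  (asdimLT_prod r).of_injective ψ.toMonoidHom ψ.injective

end Pool.Agent.Helper65.FZ
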