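import Pool.Agent.Helper65.FZ.ZbF
import Pool.Agent.Helper74.ZB.Idx

/-!
# FZ: from the M-part for abstract blocks to the M-part for the pieces of the line block structure
-/

set_option autoImplicit false

universe u

namespace Pool.Agent.Helper65.FZ

open Pool.Agent.Helper74.ZB
open Pool.Agent.Helper65.GN (Bdd)

/-- the statement of the M-part for abstract blocks -/
def M13 {G : Type u} [Group G] {L : Subgroup G} {r : ℕ}
    (ψ : L ≃* FreeGroup (Fin r) × Multiplicative ℤ) (B : Finset G) : Prop :=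
  ∃ h N₀ : ℕ, 0 < h ∧ ∀ N, N₀ ≤ N → ∀ w : ℕ, 1 ≤ w → ∀ (V : Type u) (iv : G → V),
    Ivs (el ψ 1 1) w iv → ∃ (Ev : Set (Finset V)) (inc : V → Finset (Finset V)) (E : Finset G),
      (∀ e ∈ Ev, e.Nonempty) ∧ (∀ e ∈ Ev, ∀ v ∈ e, e ∈ inc v) ∧
      (∀ v, ∑ e ∈ inc v, 1 / ((N : ℝ) - 1 / 2) ^ (e.card - 1) ≤ 1 / 8) ∧
      ∀ Mk : Set V, (∀ e ∈ Ev, ∃ v ∈ e, v ∉ Mk) → ∀ c : ℤ,
        Bdd (gens ψ : Set G) {x | ∃ b ∈ B, iv (x * b) ∈ Mk ∧ (ps ψ (x * b) / h) % 2 = c} E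

variable {G : Type u} [Group G] {L : Subgroup G} {r : ℕ}
  (ψ : L ≃* FreeGroup (Fin r) × Multiplicative ℤ)

theorem ivs_pc {H : ℕ} (hH : 1 ≤ H) {φ : Bq L r × ℤ → ℕ} (hφ : ∀ v, φ v < H) :
    Ivs (el ψ 1 1) (2 * H) fun x => (zbF ψ).pc H φ ((zbF ψ).bl x) x := by
  classical
  constructor
  · intro x y hxy
    have hxy' : (((x : G ⧸ L), -((vt ψ x).norm : ℤ), vt ψ x), idx H φ (blF ψ x) (ps ψ x)) =
        (((y : G ⧸ L), -((vt ψ y).norm : ℤ), vt ψ y), idx H φ (blF ψ y) (ps ψ y)) := hxy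
    have hb : blF ψ x = blF ψ y := congrArg Prod.fst hxy'
    simp only [Prod.mk.injEq] at hxy'
    obtain ⟨⟨h1, -, h2⟩, h3⟩ := hxy'
    rw [hb] at h3
    have h4 := idx_close hφ _ _ _ h3
    refine ⟨ps ψ y - ps ψ x, ?_, ?_⟩
    · rw [abs_sub_comm]
      push_cast
      omega
    · have h5 := eq_mul_el ψ h1
      rw [h2, inv_mul_cancel] at h5
      rw [el_zpow]
      exact h5
  · intro x
    refine ⟨(Finset.Icc (ps ψ x / (2 * H) - 1) (ps ψ x / (2 * H) + 1)).image fun i => (blF ψ x, i),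
      ?_, ?_⟩
    · refine Finset.card_image_le.trans ?_
      rw [Int.card_Icc]
      omega
    · intro j hj0 hj
      have hb : blF ψ (x * el ψ 1 1 ^ j) = blF ψ x := by
        unfold blF
        rw [el_zpow, vt_mul_el, mk_mul_el, mul_one]
      have hp : ps ψ (x * el ψ 1 1 ^ j) = ps ψ x + j := by
        rw [el_zpow, ps_mul_el]
      show (blF ψ (x * el ψ 1 1 ^ j), idx H φ (blF ψ (x * el ψ 1 1 ^ j))
        (ps ψ (x * el ψ 1 1 ^ j))) ∈ _
      rw [hb, hp]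
      refine Finset.mem_image.2 ⟨idx H φ (blF ψ x) (ps ψ x + j), ?_, rfl⟩
      have hpos : (0 : ℤ) < 2 * H := by
        have : (1 : ℤ) ≤ H := by exact_mod_cast hH
        omega
      have hj' : j < 2 * H := by
        have h6 := hj
        push_cast at h6
        exact h6
      have h7 : ps ψ x / (2 * H) ≤ (ps ψ x + j) / (2 * H) :=
        Int.ediv_le_ediv hpos (by omega)
      have h8 : (ps ψ x + j) / (2 * H) ≤ ps ψ x / (2 * H) + 1 := by
        have h9 : (ps ψ x + j) / (2 * H) ≤ (ps ψ x + 2 * H) / (2 * H) :=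
          Int.ediv_le_ediv hpos (by omega)
        rwa [Int.add_ediv_of_dvd_right (dvd_refl _), Int.ediv_self hpos.ne'] at h9
      rw [Finset.mem_Icc]
      unfold idx
      split_ifs <;> omega

theorem mpart_zb (hM : ∀ B : Finset G, M13 ψ B) (S : Finset G) : (zbF ψ).MPart S := by
  classical
  obtain ⟨h, N₀, -, hN⟩ := hM (S.image fun s => s⁻¹)
  refine ⟨N₀, fun N hNN H hH φ hφ => ?_⟩
  obtain ⟨Ev, inc, E, h1, h2, h3, h4⟩ := hN N hNN (2 * H) (by omega) _ _ (ivs_pc ψ hH hφ)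
  refine ⟨Ev, inc, E, h1, h2, h3, fun Mk hMk => ?_⟩
  refine ⟨{x | (zbF ψ).pc H φ ((zbF ψ).bl x) x ∈ Mk ∧ (ps ψ x / h) % 2 = 0},
    {x | (zbF ψ).pc H φ ((zbF ψ).bl x) x ∈ Mk ∧ (ps ψ x / h) % 2 = 1}, ?_, ?_, ?_⟩
  · intro x hx
    have h5 : (ps ψ x / h) % 2 = 0 ∨ (ps ψ x / h) % 2 = 1 := by omega
    rcases h5 with h5 | h5
    · exact Or.inl ⟨hx, h5⟩
    · exact Or.inr ⟨hx, h5⟩
  · refine (h4 Mk hMk 0).mono (Set.Subset.refl _) ?_ (Finset.Subset.refl _)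
    rintro y ⟨x, ⟨hx1, hx2⟩, s, hs, rfl⟩
    refine ⟨s⁻¹, Finset.mem_image_of_mem _ hs, ?_, ?_⟩
    · rw [mul_inv_cancel_right]
      exact hx1
    · rw [mul_inv_cancel_right]
      exact hx2
  · refine (h4 Mk hMk 1).mono (Set.Subset.refl _) ?_ (Finset.Subset.refl _)
    rintro y ⟨x, ⟨hx1, hx2⟩, s, hs, rfl⟩
    refine ⟨s⁻¹, Finset.mem_image_of_mem _ hs, ?_, ?_⟩
    · rw [mul_inv_cancel_right]
      exact hx1
    · rw [mul_inv_cancel_right]
      exact hx2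

end Pool.Agent.Helper65.FZ
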