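import Pool.Agent.Helper80.PP.Thick
import Pool.Agent.Helper74.ZB.Defs
import Pool.Agent.Helper65.GN.Union

/-!
# FZ: standard generators are enough for the thick form
-/

set_option autoImplicit false

namespace Pool.Agent.Helper65.FZ

open Pool.Agent.Helper65.TH Pool.Agent.Helper65.GN Pool.Agent.Helper80.PP Pool.Agent.Helper74.ZB

variable {G : Type*} [Group G]

private theorem list_of_mem {L : Subgroup G} (T₀ : Finset G) (hsym : ∀ s ∈ T₀, s⁻¹ ∈ T₀)
    (hgen : L ≤ Subgroup.closure (T₀ : Set G)) (t : G) (ht : t ∈ L) :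
    ∃ l : List G, (∀ s ∈ l, s ∈ T₀) ∧ l.prod = t := by
  have h0 : t ∈ (Subgroup.closure (T₀ : Set G)).toSubmonoid := hgen ht
  rw [Subgroup.closure_toSubmonoid] at h0
  obtain ⟨l, hl, hp⟩ := Submonoid.exists_list_of_mem_closure h0
  refine ⟨l, fun s hs => ?_, hp⟩
  rcases hl s hs with h | h
  · exact h
  · have h1 := hsym _ (Finset.mem_coe.1 (Set.mem_inv.1 h))
    rwa [inv_inv] at h1

private theorem chain_list {A : Set G} (T₀ : Finset G) (l : List G) (hl : ∀ s ∈ l, s ∈ T₀) (x : G)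
    (hA : ∀ j ≤ l.length, x * (l.take j).prod ∈ A) :
    Chain (T₀ : Set G) (fun b => b ∈ A) x (x * l.prod) := by
  have key : ∀ j ≤ l.length, Chain (T₀ : Set G) (fun b => b ∈ A) x (x * (l.take j).prod) := by
    intro j
    induction j with
    | zero =>
      intro _
      rw [List.take_zero, List.prod_nil, mul_one]
      exact Chain.refl _ _ _
    | succ j ih =>
      intro hj
      refine (ih (by omega)).step ?_ (hA _ hj)
      have h1 : (l.take (j + 1)).prod = (l.take j).prod * l[j] := by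
        rw [List.take_succ_eq_append_getElem (by omega), List.prod_append, List.prod_singleton]
      rw [h1]
      have h2 : (x * (l.take j).prod)⁻¹ * (x * ((l.take j).prod * l[j])) = l[j] := by group
      rw [h2]
      exact hl _ (List.getElem_mem _)
  have h3 := key l.length le_rfl
  rwa [List.take_length] at h3

theorem thick_of_std (K L : Subgroup G) (T₀ : Finset G) (hsym : ∀ s ∈ T₀, s⁻¹ ∈ T₀)
    (hgen : L ≤ Subgroup.closure (T₀ : Set G)) {n : ℕ}
    (h : ∀ S : Finset G, ∃ (w : G → ℕ) (E : Finset G), (∀ x, w x ≤ n) ∧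
      ∀ i, Bdd (T₀ : Set G) (Zb.thick {x | w x = i} S) E) : ThickSep K L n := by
  classical
  intro T B hT _
  have h1 : ∀ t : G, ∃ l : List G, (∀ s ∈ l, s ∈ T₀) ∧ (t ∈ T → l.prod = t) := by
    intro t
    by_cases ht : t ∈ T
    · obtain ⟨l, hl, hp⟩ := list_of_mem T₀ hsym hgen t (hT t ht)
      exact ⟨l, hl, fun _ => hp⟩
    · exact ⟨[], fun s hs => absurd hs List.not_mem_nil, fun h => absurd h ht⟩
  choose l hl hp using h1
  obtain ⟨P, hP⟩ : ∃ P : Finset G, P = insert 1 (T.biUnion fun t =>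
    (Finset.range ((l t).length + 1)).image fun j => ((l t).take j).prod) := ⟨_, rfl⟩
  have hP1 : (1 : G) ∈ P := by
    rw [hP]
    exact Finset.mem_insert_self _ _
  have hPt : ∀ t ∈ T, ∀ j ≤ (l t).length, ((l t).take j).prod ∈ P := by
    intro t ht j hj
    rw [hP]
    exact Finset.mem_insert_of_mem (Finset.mem_biUnion.2 ⟨t, ht, Finset.mem_image.2
      ⟨j, Finset.mem_range.2 (by omega), rfl⟩⟩)
  obtain ⟨w, E, hw, hE⟩ := h (Finset.image₂ (fun b p => b⁻¹ * p) B P)
  refine ⟨w, E, hw, fun i => ?_⟩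
  intro x hx y hxy
  obtain ⟨A, hA⟩ : ∃ A : Set G, A = Zb.thick {x | w x = i} (Finset.image₂ (fun b p => b⁻¹ * p) B P) :=
    ⟨_, rfl⟩
  have hmem : ∀ z : G, (∃ b ∈ B, w (z * b) = i) → ∀ p ∈ P, z * p ∈ A := by
    rintro z ⟨b, hb, hz⟩ p hpp
    rw [hA]
    refine ⟨z * b, hz, b⁻¹ * p, Finset.mem_image₂.2 ⟨b, hb, p, hpp, rfl⟩, ?_⟩
    group
  have key : (∃ b ∈ B, w (y * b) = i) ∧ Chain (T₀ : Set G) (fun b => b ∈ A) x y := by
    refine hxy.rec' (R := fun z => (∃ b ∈ B, w (z * b) = i) ∧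
      Chain (T₀ : Set G) (fun b => b ∈ A) x z) ⟨hx, Chain.refl _ _ _⟩ ?_
    intro a b _ ha hs hb
    refine ⟨hb, ha.2.trans ?_⟩
    have h2 := chain_list (A := A) T₀ (l (a⁻¹ * b)) (hl _) a
      (fun j hj => hmem a ha.1 _ (hPt _ hs j hj))
    rwa [hp _ hs, mul_inv_cancel_left] at h2
  have hxA : x ∈ A := by
    have h3 := hmem x hx 1 hP1
    rwa [mul_one] at h3
  rw [hA] at hxA key
  exact hE i x hxA y key.2

end Pool.Agent.Helper65.FZ
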