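import Pool.Agent.Helper65.FZ.Bridge
import Pool.Agent.Helper65.FZ.Asd
import Pool.Agent.Helper65.FZ.StdT
import Pool.Agent.Helper74.ZB.Main

/-!
# FZ: separation of a leaf `L ≃* F × ℤ` (from the M-part)
-/

set_option autoImplicit false

universe u

namespace Pool.Agent.Helper65.FZ

open Pool.Agent.Helper65.TH Pool.Agent.Helper65.GN Pool.Agent.Helper80.PP Pool.Agent.Helper74.ZB

variable {G : Type u} [Group G]

theorem thick_leaf (K L : Subgroup G) {r : ℕ} (ψ : L ≃* FreeGroup (Fin r) × Multiplicative ℤ)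
    (hM : ∀ B : Finset G, M13 ψ B) : ThickSep K L 6 :=
  thick_of_std K L (gens ψ) (fun _ hs => gens_inv ψ hs) (le_closure_gens ψ)
    fun S => (zbF ψ).thick_sets (asdimLT_leaf ψ) S (mpart_zb ψ hM)

theorem sep_leaf (K L : Subgroup G) (hLK : L ≤ K)
    (hfin : ∀ S : Finset G, (∀ s ∈ S, s ∈ K) → ∃ (H : Subgroup G) (t : ℕ), (∀ s ∈ S, s ∈ H) ∧
      AsdimLT H t) {r : ℕ} (ψ : L ≃* FreeGroup (Fin r) × Multiplicative ℤ)
    (hM : ∀ B : Finset G, M13 ψ B) : Sep K L 7 :=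
  sep_of_thick K L hLK hfin (thick_leaf K L ψ hM)

end Pool.Agent.Helper65.FZ
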