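import Pool.Agent.Helper65.FZ.Final
import Pool.Agent.Helper13.FZ.MPart

/-!
# FZ: leaves `L ≃* F × ℤ`, `F` free of finite rank, are cut in all overgroups
-/

set_option autoImplicit false

universe u

namespace Pool.Agent.Helper65.FZ

open Pool.Agent.Helper65.TH Pool.Agent.Helper65.GN Pool.Agent.Helper80.PP

variable {G : Type u} [Group G]

theorem m13 {L : Subgroup G} {r : ℕ} (ψ : L ≃* FreeGroup (Fin r) × Multiplicative ℤ)
    (B : Finset G) : M13 ψ B :=
  Pool.Agent.Helper13.FZ.mpart ψ (gens ψ) B fun _ ht => gens_sub ψ ht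

/-- the thick form for leaves `F × ℤ` -/
theorem thick_fz (K L : Subgroup G) {r : ℕ} (ψ : L ≃* FreeGroup (Fin r) × Multiplicative ℤ) :
    ThickSep K L 6 :=
  thick_leaf K L ψ (m13 ψ)

/-- separation of leaves `F × ℤ` -/
theorem sep_fz (K L : Subgroup G) (hLK : L ≤ K)
    (hfin : ∀ S : Finset G, (∀ s ∈ S, s ∈ K) → ∃ (H : Subgroup G) (t : ℕ), (∀ s ∈ S, s ∈ H) ∧
      AsdimLT H t) {r : ℕ} (ψ : L ≃* FreeGroup (Fin r) × Multiplicative ℤ) : Sep K L 7 :=
  sep_leaf K L hLK hfin ψ (m13 ψ)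

end Pool.Agent.Helper65.FZ
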