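import Pool.Agent.Helper65.FZ.Defs

/-!
# FZ: ancestors in the tree of a free group
-/

set_option autoImplicit false

namespace Pool.Agent.Helper65.FZ

open FreeGroup

variable {r : ℕ}

theorem toWord_anc (n : ℕ) (v : FreeGroup (Fin r)) : (anc n v).toWord = v.toWord.take n := by
  rw [anc, toWord_mk]
  exact IsReduced.reduce_eq (List.IsChain.take isReduced_toWord n)

theorem norm_anc (n : ℕ) (v : FreeGroup (Fin r)) : (anc n v).norm = min n v.norm := by
  unfold FreeGroup.norm
  rw [toWord_anc, List.length_take]

theorem anc_self {n : ℕ} {v : FreeGroup (Fin r)} (h : v.norm ≤ n) : anc n v = v := by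
  apply toWord_injective
  rw [toWord_anc]
  exact List.take_of_length_le h

theorem anc_anc (n m : ℕ) (v : FreeGroup (Fin r)) : anc n (anc m v) = anc (min n m) v := by
  apply toWord_injective
  rw [toWord_anc, toWord_anc, toWord_anc, List.take_take]

theorem norm_inv_anc_mul (n : ℕ) (v : FreeGroup (Fin r)) :
    ((anc n v)⁻¹ * v).norm = v.norm - n := by
  have h : (anc n v)⁻¹ * v = mk (v.toWord.drop n) := by
    rw [inv_mul_eq_iff_eq_mul, anc, mul_mk, List.take_append_drop, mk_toWord]
  rw [h]
  unfold FreeGroup.norm
  rw [toWord_mk, IsReduced.reduce_eq (List.IsChain.drop isReduced_toWord n), List.length_drop]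

theorem adj_mk (v : FreeGroup (Fin r)) (x : Fin r × Bool) : Adj v (v * mk [x]) := by
  have h0 : v * mk [x] = mk (v.toWord ++ [x]) := by rw [← mul_mk, mk_toWord]
  by_cases hred : IsReduced (v.toWord ++ [x])
  · left
    have h1 : (v * mk [x]).toWord = v.toWord ++ [x] := by
      rw [h0, toWord_mk, hred.reduce_eq]
    refine ⟨?_, ?_⟩
    · unfold FreeGroup.norm
      rw [h1, List.length_append, List.length_singleton]
    · apply toWord_injective
      rw [toWord_anc, h1]
      unfold FreeGroup.norm
      rw [List.take_left]
  · right
    rcases List.eq_nil_or_concat v.toWord with hnil | ⟨W, y, hW⟩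
    · exfalso
      apply hred
      rw [hnil]
      exact IsReduced.singleton
    · rw [List.concat_eq_append] at hW
      have hWr : IsReduced (W ++ [y]) := by
        rw [← hW]
        exact isReduced_toWord
      have hyx : y = (x.1, !x.2) := by
        by_contra hne
        apply hred
        rw [hW]
        unfold FreeGroup.IsReduced at hWr ⊢
        rw [List.isChain_append]
        refine ⟨hWr, List.isChain_singleton x, ?_⟩
        intro p hp q hq
        have hp' : y = p := by simpa using hp
        have hq' : x = q := by simpa using hq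
        rw [← hp', ← hq']
        intro h1
        by_contra h2
        apply hne
        ext
        · exact congrArg Fin.val h1
        · cases hy : y.2 <;> cases hx : x.2 <;> simp_all
      have h1 : v * mk [x] = mk W := by
        rw [h0, hW, hyx]
        rw [← mul_mk, ← mul_mk, mul_assoc]
        have : (mk [(x.1, !x.2)] : FreeGroup (Fin r)) * mk [x] = 1 := by
          have h2 : (mk [(x.1, !x.2)] : FreeGroup (Fin r)) = (mk [x])⁻¹ := by
            rw [inv_mk]
            rfl
          rw [h2, inv_mul_cancel]
        rw [this, mul_one]
      have hWr' : IsReduced W := List.IsChain.left_of_append hWr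
      have h3 : (v * mk [x]).toWord = W := by
        rw [h1, toWord_mk, hWr'.reduce_eq]
      refine ⟨?_, ?_⟩
      · unfold FreeGroup.norm
        rw [h3, hW, List.length_append, List.length_singleton]
      · apply toWord_injective
        rw [toWord_anc, h3]
        unfold FreeGroup.norm
        rw [h3, hW, List.take_left]

theorem adj_symm {u v : FreeGroup (Fin r)} (h : Adj u v) : Adj v u := by
  rcases h with h | h
  · exact Or.inr h
  · exact Or.inl h

theorem anc_mul_mk (n : ℕ) (W : List (Fin r × Bool)) (v : FreeGroup (Fin r))
    (h : n + W.length ≤ v.norm) :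
    anc n (v * mk W) = anc n v ∧ v.norm ≤ (v * mk W).norm + W.length ∧
      (v * mk W).norm ≤ v.norm + W.length := by
  induction W generalizing v with
  | nil =>
    rw [← one_eq_mk, mul_one]
    simp
  | cons x W ih =>
    have h1 : v * mk (x :: W) = (v * mk [x]) * mk W := by
      rw [mul_assoc, mul_mk]
      rfl
    rw [List.length_cons] at h
    rw [h1, List.length_cons]
    rcases adj_mk v x with ⟨h2, h3⟩ | ⟨h2, h3⟩
    · obtain ⟨h4, h5, h6⟩ := ih (v * mk [x]) (by omega)
      refine ⟨?_, by omega, by omega⟩
      rw [h4]
      conv_rhs => rw [← h3]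
      rw [anc_anc, min_eq_left (by omega)]
    · obtain ⟨h4, h5, h6⟩ := ih (v * mk [x]) (by omega)
      refine ⟨?_, by omega, by omega⟩
      rw [h4]
      conv_lhs => rw [← h3]
      rw [anc_anc, min_eq_left (by omega)]

theorem anc_mul (n : ℕ) (v s : FreeGroup (Fin r)) (h : n + s.norm ≤ v.norm) :
    anc n (v * s) = anc n v := by
  have h1 := (anc_mul_mk n s.toWord v h).1
  rwa [mk_toWord] at h1

/-- a finite set which contains the ball -/
theorem exists_ball (r N : ℕ) : ∃ B : Finset (FreeGroup (Fin r)), (∀ v, v.norm ≤ N → v ∈ B) ∧
    B.card ≤ (2 * r + 1) ^ N := by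
  classical
  let g : Option (Fin r × Bool) → FreeGroup (Fin r) := fun o => o.elim 1 (fun x => mk [x])
  refine ⟨Finset.univ.image fun f : Fin N → Option (Fin r × Bool) => (List.ofFn fun i => g (f i)).prod,
    ?_, ?_⟩
  · intro v hv
    rw [Finset.mem_image]
    have key : ∀ (M : ℕ) (W : List (Fin r × Bool)), W.length ≤ M →
        ∃ f : Fin M → Option (Fin r × Bool), (List.ofFn fun i => g (f i)).prod = mk W := by
      intro M
      induction M with
      | zero =>
        intro W hW
        have h0 : W = [] := List.eq_nil_of_length_eq_zero (Nat.le_zero.1 hW)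
        refine ⟨fun _ => none, ?_⟩
        rw [h0, List.ofFn_zero, List.prod_nil, one_eq_mk]
      | succ M ih =>
        intro W hW
        cases W with
        | nil =>
          obtain ⟨f, hf⟩ := ih [] (Nat.zero_le _)
          refine ⟨Fin.cons none f, ?_⟩
          rw [List.ofFn_succ, List.prod_cons]
          simp only [Fin.cons_zero, Fin.cons_succ]
          rw [hf]
          show (1 : FreeGroup (Fin r)) * _ = _
          rw [one_mul]
        | cons x W =>
          obtain ⟨f, hf⟩ := ih W (by simpa using hW)
          refine ⟨Fin.cons (some x) f, ?_⟩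
          rw [List.ofFn_succ, List.prod_cons]
          simp only [Fin.cons_zero, Fin.cons_succ]
          rw [hf]
          show mk [x] * _ = _
          rw [mul_mk]
          rfl
    obtain ⟨f, hf⟩ := key N v.toWord hv
    exact ⟨f, Finset.mem_univ _, by rw [hf, mk_toWord]⟩
  · refine Finset.card_image_le.trans ?_
    rw [Finset.card_univ, Fintype.card_fun, Fintype.card_fin, Fintype.card_option, Fintype.card_prod,
      Fintype.card_fin, Fintype.card_bool]
    rw [Nat.mul_comm r 2]

end Pool.Agent.Helper65.FZ
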