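import Pool.Agent.Helper65.FZ.Coord
import Pool.Agent.Helper74.ZB.Defs

/-!
# FZ: the line block structure of a leaf `L ≃* F × ℤ`

The block of `x` is its line `(coset, - depth, vertex)`.
-/

set_option autoImplicit false

namespace Pool.Agent.Helper65.FZ

open Pool.Agent.Helper74.ZB

variable {G : Type*} [Group G] {L : Subgroup G} {r : ℕ}
  (ψ : L ≃* FreeGroup (Fin r) × Multiplicative ℤ)

/-- blocks: coset, level, vertex -/
abbrev Bq {G : Type*} [Group G] (L : Subgroup G) (r : ℕ) : Type _ := (G ⧸ L) × ℤ × FreeGroup (Fin r)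

/-- the block of `x` -/
noncomputable def blF (x : G) : Bq L r := ((x : G ⧸ L), -((vt ψ x).norm : ℤ), vt ψ x)

/-- the parent -/
def pF (b : Bq L r) : Bq L r := (b.1, b.2.1 + 1, anc (b.2.2.norm - 1) b.2.2)

theorem pF_iter (i : ℕ) (b : Bq L r) : pF^[i] b = (b.1, b.2.1 + i, anc (b.2.2.norm - i) b.2.2) := by
  induction i with
  | zero =>
    rw [Function.iterate_zero, id_eq, Nat.cast_zero, add_zero, Nat.sub_zero, anc_self le_rfl]
  | succ i ih =>
    rw [Function.iterate_succ_apply', ih]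
    unfold pF
    simp only
    rw [anc_anc, norm_anc]
    refine Prod.ext rfl (Prod.ext ?_ ?_)
    · push_cast
      ring
    · simp only
      congr 1
      omega

/-- a finite set which contains the words of length at most `N` -/
noncomputable def fb (r N : ℕ) : Finset (FreeGroup (Fin r)) := (exists_ball r N).choose

theorem mem_fb {r N : ℕ} {v : FreeGroup (Fin r)} (h : v.norm ≤ N) : v ∈ fb r N :=
  (exists_ball r N).choose_spec.1 v h

theorem card_fb (r N : ℕ) : (fb r N).card ≤ (2 * r + 1) ^ N := (exists_ball r N).choose_spec.2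

open Classical in
/-- the elements of `L` with coordinates in a box -/
noncomputable def EF (k R : ℕ) : Finset G :=
  ((fb r (2 * k)) ×ˢ (Finset.Icc (-(R : ℤ)) R)).image fun p => el ψ p.1 p.2

theorem card_EF (k R : ℕ) : (EF ψ k R).card ≤ 2 * ((2 * r + 1) ^ 2) ^ k * (R + 1) := by
  classical
  unfold EF
  refine Finset.card_image_le.trans ?_
  rw [Finset.card_product, Int.card_Icc]
  have h1 : ((R : ℤ) + 1 - -(R : ℤ)).toNat = 2 * R + 1 := by omega
  rw [h1]
  have h2 := card_fb r (2 * k)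
  rw [← pow_mul]
  calc (fb r (2 * k)).card * (2 * R + 1) ≤ (2 * r + 1) ^ (2 * k) * (2 * R + 1) :=
        Nat.mul_le_mul_right _ h2
    _ ≤ (2 * r + 1) ^ (2 * k) * (2 * (R + 1)) := Nat.mul_le_mul_left _ (by omega)
    _ = 2 * (2 * r + 1) ^ (2 * k) * (R + 1) := by ring

/-- the line block structure -/
noncomputable def zbF : Zb L (gens ψ) (Bq L r) where
  bl := blF ψ
  p := pF
  lev b := b.2.1
  cos b := b.1
  pos _ x := ps ψ x
  C := 2
  e := (2 * r + 1) ^ 2
  E := EF ψ
  cos_bl _ := rfl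
  cos_p _ := rfl
  lev_p _ := rfl
  symm s hs := gens_inv ψ hs
  one_le := Nat.one_le_pow _ _ (by omega)
  step := by
    intro x s hs
    have hc : ((x * s : G) : G ⧸ L) = (x : G ⧸ L) := QuotientGroup.mk_mul_of_mem x (gens_sub ψ hs)
    rcases step_gens ψ x hs with ⟨h1, -⟩ | ⟨-, h | h⟩
    · left
      unfold blF
      rw [h1, hc]
    · right
      right
      unfold blF pF
      simp only
      rw [h.1, Nat.add_sub_cancel, h.2, hc]
      refine Prod.ext rfl (Prod.ext ?_ rfl)
      push_cast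
      ring
    · right
      left
      unfold blF pF
      simp only
      rw [h.1, Nat.add_sub_cancel, h.2, hc]
      refine Prod.ext rfl (Prod.ext ?_ rfl)
      push_cast
      ring
  pstep := by
    intro i x s hs
    have h1 : |ps ψ (x * s) - ps ψ x| ≤ 1 := by
      rcases step_gens ψ x hs with ⟨-, h | h⟩ | ⟨h, -⟩
      · rw [h, add_sub_cancel_left]
        norm_num
      · rw [h, show ps ψ x - 1 - ps ψ x = -1 by ring]
        norm_num
      · rw [h, sub_self]
        norm_num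
    refine h1.trans ?_
    have h2 : 1 ≤ ((2 * r + 1) ^ 2) ^ i := Nat.one_le_pow _ _ (Nat.one_le_pow _ _ (by omega))
    have h3 : (1 : ℕ) ≤ 2 * ((2 * r + 1) ^ 2) ^ i := by omega
    exact_mod_cast h3
  hE := by
    classical
    intro k R x y i hi j hj h hp
    rw [pF_iter, pF_iter] at h
    unfold blF at h
    simp only [Prod.mk.injEq] at h
    obtain ⟨h1, -, h3⟩ := h
    have h4 := norm_inv_anc_mul ((vt ψ x).norm - i) (vt ψ x)
    have h5 := norm_inv_anc_mul ((vt ψ y).norm - j) (vt ψ y)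
    rw [← h3] at h5
    obtain ⟨u, hu⟩ : ∃ u, u = anc ((vt ψ x).norm - i) (vt ψ x) := ⟨_, rfl⟩
    rw [← hu] at h4 h5
    have h6 : (vt ψ x)⁻¹ * vt ψ y = (u⁻¹ * vt ψ x)⁻¹ * (u⁻¹ * vt ψ y) := by group
    have h7 : ((vt ψ x)⁻¹ * vt ψ y).norm ≤ 2 * k := by
      rw [h6]
      refine (FreeGroup.norm_mul_le _ _).trans ?_
      rw [FreeGroup.norm_inv_eq]
      omega
    rw [abs_le] at hp
    have h8 := eq_mul_el ψ h1
    have h9 : x⁻¹ * y = el ψ ((vt ψ x)⁻¹ * vt ψ y) (ps ψ y - ps ψ x) := by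
      conv_lhs => rw [h8]
      exact inv_mul_cancel_left _ _
    rw [h9]
    refine Finset.mem_image.2 ⟨((vt ψ x)⁻¹ * vt ψ y, ps ψ y - ps ψ x), ?_, rfl⟩
    refine Finset.mem_product.2 ⟨mem_fb h7, Finset.mem_Icc.2 ⟨?_, ?_⟩⟩
    · show -(R : ℤ) ≤ ps ψ y - ps ψ x
      omega
    · show ps ψ y - ps ψ x ≤ (R : ℤ)
      omega
  card := card_EF ψ

end Pool.Agent.Helper65.FZ
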